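import Pool.Agent.Helper65.RP.Ord

/-!
# Project RP, modules C2 and C3: the shifted orbits satisfy `Lev` and `Grow`
-/

set_option autoImplicit false
set_option linter.unusedSectionVars false
set_option linter.unusedVariables false

namespace Pool.Agent.Helper38.RP

open Pool.Agent.Helper65.RP
open MvPolynomial Filter Topology

lemma le_ciSup_fin {N : ℕ} (w : Fin N → ℝ) (i : Fin N) : w i ≤ ⨆ j, w j :=
  le_ciSup (Set.finite_range w).bddAbove i

lemma abv_le_exp_lh {K : Type} [Field K] {N : ℕ} (v : AbsoluteValue K ℝ) (x : Fin N → K)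
    (i : Fin N) : v (x i) ≤ Real.exp (lh v x) := by
  have h1 : v (x i) ≤ ⨆ j, v (x j) := le_ciSup_fin (fun j => v (x j)) i
  have h2 : (0 : ℝ) < max 1 (⨆ j, v (x j)) := lt_of_lt_of_le one_pos (le_max_left _ _)
  unfold lh
  rw [Real.exp_log h2]
  exact h1.trans (le_max_right _ _)

/-- If the logarithmic size is positive, some coordinate realises it. -/
lemma exists_max {K : Type} [Field K] {N : ℕ} (v : AbsoluteValue K ℝ) (x : Fin N → K)
    (h : 0 < lh v x) : ∃ i : Fin N, v (x i) = Real.exp (lh v x) ∧ ∀ j, v (x j) ≤ v (x i) := by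
  have h1 : 1 < max 1 (⨆ j, v (x j)) := by
    have h2 : (0 : ℝ) < max 1 (⨆ j, v (x j)) := lt_of_lt_of_le one_pos (le_max_left _ _)
    unfold lh at h
    exact (Real.log_pos_iff h2.le).1 h
  have h3 : 1 < ⨆ j, v (x j) := by
    rcases lt_max_iff.1 h1 with h4 | h4
    · exact absurd h4 (lt_irrefl _)
    · exact h4
  have hne : Nonempty (Fin N) := by
    by_contra hcon
    rw [not_nonempty_iff] at hcon
    rw [Real.iSup_of_isEmpty] at h3
    linarith
  obtain ⟨i, hi⟩ := exists_eq_ciSup_of_finite (f := fun j => v (x j))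
  have h5 : lh v x = Real.log (v (x i)) := by
    unfold lh
    rw [max_eq_right h3.le, ← hi]
  have h6 : 0 < v (x i) := by
    have : v (x i) = ⨆ j, v (x j) := hi
    rw [this]
    linarith
  refine ⟨i, ?_, fun j => ?_⟩
  · rw [h5, Real.exp_log h6]
  · have h7 : v (x i) = ⨆ j, v (x j) := hi
    rw [h7]
    exact le_ciSup_fin (fun j => v (x j)) j

lemma tendsto_scale {𝒰 : Ultrafilter ℕ} (h𝒰 : (𝒰 : Filter ℕ) ≤ atTop) {d : ℕ} (hd : 2 ≤ d)
    {G : ℝ} (hG : 0 < G) (m : ℕ) :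
    Tendsto (fun n : ℕ => (d : ℝ) ^ (n - m) * G) (𝒰 : Filter ℕ) atTop := by
  have h1 : Tendsto (fun n : ℕ => n - m) atTop atTop := tendsto_sub_atTop_nat m
  have h2 : (1 : ℝ) < d := by exact_mod_cast lt_of_lt_of_le one_lt_two hd
  have h3 : Tendsto (fun n : ℕ => (d : ℝ) ^ (n - m)) atTop atTop :=
    (tendsto_pow_atTop_atTop_of_one_lt h2).comp h1
  exact (h3.atTop_mul_const hG).mono_left h𝒰

section C
variable {K Kb Ω : Type} [Field K] [Field Kb] [Algebra K Kb] [IsAlgClosed Kb]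
  [NormedField Ω] [Algebra K Ω] {N d : ℕ} {f : Fin N → MvPolynomial (Fin N) K}

/-- C2 -/
theorem exists_lev {𝒰 : Ultrafilter ℕ} (h𝒰 : (𝒰 : Filter ℕ) ≤ atTop) (hd : 2 ≤ d)
    (a : Fin N → K) (v : AbsoluteValue K ℝ) (hv : ∀ x, ‖algebraMap K Ω x‖ = v x) (G C : ℝ)
    (hG : 0 < G) (hGC : ∀ n, |lh v (orb f a n) - d ^ n * G| ≤ C)
    (halg : ∀ (m : ℕ) (i₀ i : Fin N),
      (∀ p : Polynomial K, p ≠ 0 → ∀ᶠ n in (𝒰 : Filter ℕ), p.eval (orb f a (n - m) i₀) ≠ 0) →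
      ∃ R : Polynomial (Polynomial K), R ≠ 0 ∧ ∀ᶠ n in (𝒰 : Filter ℕ),
        (R.map (Polynomial.evalRingHom (orb f a (n - m) i₀))).eval (orb f a (n - m) i) = 0)
    (m : ℕ) :
    ∃ i₀ : Fin N, Lev Ω 𝒰 (fun n => d ^ (n - m) * G) (fun n => orb f a (n - m)) i₀ := by
  have hs : Tendsto (fun n : ℕ => (d : ℝ) ^ (n - m) * G) (𝒰 : Filter ℕ) atTop :=
    tendsto_scale h𝒰 hd hG m
  have hLs : ∀ n, |lh v (orb f a (n - m)) - (d : ℝ) ^ (n - m) * G| ≤ C := fun n => hGC (n - m)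
  have h1 : ∀ᶠ n in (𝒰 : Filter ℕ), ∃ i : Fin N,
      v (orb f a (n - m) i) = Real.exp (lh v (orb f a (n - m))) ∧
        ∀ j, v (orb f a (n - m) j) ≤ v (orb f a (n - m) i) := by
    filter_upwards [hs.eventually_gt_atTop C] with n hn
    refine exists_max v _ ?_
    have h2 := (abs_le.1 (hLs n)).1
    linarith
  obtain ⟨i₀, hi₀⟩ := exists_eventually h1
  have htop : HasOrd 𝒰 (fun n : ℕ => (d : ℝ) ^ (n - m) * G)
      (fun n => algebraMap K Ω (orb f a (n - m) i₀)) (-1) := by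
    refine hasOrd_of_bounds hs fun ε hε => ?_
    filter_upwards [hi₀, hs.eventually_gt_atTop (C / ε)] with n hn1 hn2
    rw [div_lt_iff₀ hε] at hn2
    obtain ⟨h3, h4⟩ := abs_le.1 (hLs n)
    rw [hv, hn1.1]
    constructor
    · apply Real.exp_le_exp.2
      nlinarith
    · apply Real.exp_le_exp.2
      nlinarith
  refine ⟨i₀, hs, htop, fun i => ?_, fun i => ?_⟩
  · refine GeOrd.of_norm (htop.ge hs) ?_
    filter_upwards [hi₀] with n hn
    rw [hv, hv]
    exact hn.2 i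
  · refine halg m i₀ i fun p hp => ?_
    have h5 : Tendsto (fun n => ‖algebraMap K Ω (orb f a (n - m) i₀)‖) (𝒰 : Filter ℕ) atTop :=
      htop.tendsto_norm_atTop hs (by norm_num)
    filter_upwards [h5.eventually_gt_atTop (p.roots.map v).sum] with n hn hcon
    rw [hv] at hn
    have h6 : orb f a (n - m) i₀ ∈ p.roots := (Polynomial.mem_roots hp).2 hcon
    have h7 : v (orb f a (n - m) i₀) ≤ (p.roots.map v).sum := by
      refine Multiset.single_le_sum (fun x hx => ?_) _ (Multiset.mem_map_of_mem v h6)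
      obtain ⟨y, -, rfl⟩ := Multiset.mem_map.1 hx
      exact v.nonneg y
    linarith

/-- C3 -/
theorem exists_grow {𝒰 : Ultrafilter ℕ} (h𝒰 : (𝒰 : Filter ℕ) ≤ atTop) (hd : 2 ≤ d)
    (a : Fin N → K) {Λ : Type} [Fintype Λ] (Z : PD K Ω Λ) (G : ℝ) (hG : 0 < G) (Gl : Λ → ℝ)
    (hGl : ∀ l, 0 ≤ Gl l) (C : ℝ) (hC : ∀ l n, |lh (Z.abv l) (orb f a n) - d ^ n * Gl l| ≤ C)
    (hO : ∀ n i, orb f a n i ∈ Z.O) (m : ℕ) :
    Grow Z (fun l => Gl l / G) 𝒰 (fun n => d ^ (n - m) * G) (fun n => orb f a (n - m)) := by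
  have hs : Tendsto (fun n : ℕ => (d : ℝ) ^ (n - m) * G) (𝒰 : Filter ℕ) atTop :=
    tendsto_scale h𝒰 hd hG m
  refine ⟨fun l => div_nonneg (hGl l) hG.le, Eventually.of_forall fun n i => hO _ i,
    fun ε hε => ?_⟩
  filter_upwards [hs.eventually_gt_atTop (C / ε)] with n hn l i
  rw [div_lt_iff₀ hε] at hn
  refine (abv_le_exp_lh (Z.abv l) (orb f a (n - m)) i).trans (Real.exp_le_exp.2 ?_)
  have h1 := (abs_le.1 (hC l (n - m))).2
  have h2 : (Gl l / G + ε) * ((d : ℝ) ^ (n - m) * G) =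
      (d : ℝ) ^ (n - m) * Gl l + (d : ℝ) ^ (n - m) * G * ε := by
    field_simp
  rw [h2]
  linarith

end C

end Pool.Agent.Helper38.RP
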